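import Pool.Agent.Helper32.KK.Defs

/-!
# Project KK, block P1: one sign changed
-/

set_option autoImplicit false

namespace Pool.Agent.Helper32.KK

open Finset

namespace P1

/-- the signs on all numbers -/
noncomputable def ex (s : Nat.Primes → ℝ) (q : ℕ) : ℝ := if h : q.Prime then s ⟨q, h⟩ else 1

theorem ex_prime (s : Nat.Primes → ℝ) (p : Nat.Primes) : ex s (p : ℕ) = s p := by
  unfold ex
  rw [dif_pos p.2]
  rfl

theorem sgn_eq (s : Nat.Primes → ℝ) (n : ℕ) : sgn s n = if Squarefree n then ∏ q ∈ n.primeFactors, ex s q else 0 := by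
  unfold sgn
  split_ifs with h
  · rw [← Finset.prod_attach n.primeFactors (fun q => ex s q)]
    refine Finset.prod_congr rfl fun q _ => ?_
    unfold ex
    rw [dif_pos (Nat.prime_of_mem_primeFactors q.2)]
  · rfl

theorem sgn_mul (s : Nat.Primes → ℝ) (p : Nat.Primes) {m : ℕ} (hm : ¬ (p : ℕ) ∣ m) : sgn s ((p : ℕ) * m) = s p * sgn s m := by
  have hcop : Nat.Coprime (p : ℕ) m := (Nat.Prime.coprime_iff_not_dvd p.2).2 hm
  rw [sgn_eq, sgn_eq]
  by_cases h : Squarefree m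
  · have hp : Squarefree (p : ℕ) := (Nat.prime_iff.1 p.2).squarefree
    rw [if_pos ((Nat.squarefree_mul hcop).2 ⟨hp, h⟩), if_pos h, hcop.primeFactors_mul,
      Finset.prod_union hcop.disjoint_primeFactors, Nat.Prime.primeFactors p.2, Finset.prod_singleton]
    congr 1
    exact ex_prime s p
  · rw [if_neg (fun h' => h ((Nat.squarefree_mul hcop).1 h').2), if_neg h, mul_zero]

theorem sgn_dvd (s : Nat.Primes → ℝ) (p : Nat.Primes) {m : ℕ} (hm : (p : ℕ) ∣ m) : sgn s ((p : ℕ) * m) = 0 := by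
  rw [sgn_eq, if_neg]
  intro h
  have h1 : IsUnit (p : ℕ) := h (p : ℕ) (Nat.mul_dvd_mul_left _ hm)
  rw [Nat.isUnit_iff] at h1
  exact p.2.one_lt.ne' h1

theorem sgn_upd (s : Nat.Primes → ℝ) (p : Nat.Primes) (c : ℝ) {m : ℕ} (hm : ¬ (p : ℕ) ∣ m) :
    sgn (Function.update s p c) m = sgn s m := by
  rw [sgn_eq, sgn_eq]
  split_ifs with h
  · refine Finset.prod_congr rfl fun q hq => ?_
    have hq1 := Nat.prime_of_mem_primeFactors hq
    have hq2 := Nat.dvd_of_mem_primeFactors hq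
    unfold ex
    rw [dif_pos hq1, dif_pos hq1, Function.update_of_ne]
    intro he
    rw [← he] at hm
    exact hm hq2
  · rfl

/-- the part prime to `p` -/
noncomputable def A (s : Nat.Primes → ℝ) (p M : ℕ) (x : ℝ) : ℂ :=
  ∑ m ∈ (Icc 1 M).filter (fun m => ¬ p ∣ m), (sgn s m : ℂ) * Complex.exp (2 * Real.pi * Complex.I * m * x)

theorem A_upd (s : Nat.Primes → ℝ) (p : Nat.Primes) (c : ℝ) (M : ℕ) (x : ℝ) :
    A (Function.update s p c) p M x = A s p M x := by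
  unfold A
  refine Finset.sum_congr rfl fun m hm => ?_
  rw [sgn_upd s p c (Finset.mem_filter.1 hm).2]

theorem FF_eq (s : Nat.Primes → ℝ) (p : Nat.Primes) (M : ℕ) (x : ℝ) :
    FF (sgn s) M x = A s p M x + (s p : ℂ) * A s p (M / (p : ℕ)) ((p : ℕ) * x) := by
  unfold FF
  rw [← Finset.sum_filter_add_sum_filter_not (Icc 1 M) (fun m => ¬ (p : ℕ) ∣ m)]
  unfold A
  congr 1
  rw [Finset.mul_sum]
  have hp0 : 0 < (p : ℕ) := p.2.pos
  -- the multiples
  have h1 : (Icc 1 M).filter (fun m => ¬ ¬ (p : ℕ) ∣ m) = (Icc 1 (M / (p : ℕ))).image (fun m => (p : ℕ) * m) := by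
    ext n
    simp only [Finset.mem_filter, Finset.mem_Icc, not_not, Finset.mem_image]
    constructor
    · rintro ⟨⟨h1, h2⟩, m, rfl⟩
      refine ⟨m, ⟨?_, ?_⟩, rfl⟩
      · rcases Nat.eq_zero_or_pos m with h | h
        · subst h
          simp at h1
        · exact h
      · rw [Nat.le_div_iff_mul_le hp0, mul_comm]
        exact h2
    · rintro ⟨m, ⟨h1, h2⟩, rfl⟩
      rw [Nat.le_div_iff_mul_le hp0, mul_comm] at h2
      exact ⟨⟨Nat.mul_pos hp0 h1, h2⟩, Dvd.intro _ rfl⟩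
  rw [h1, Finset.sum_image (fun a _ b _ h => Nat.eq_of_mul_eq_mul_left hp0 h), Finset.sum_filter]
  refine Finset.sum_congr rfl fun m _ => ?_
  by_cases h : (p : ℕ) ∣ m
  · rw [sgn_dvd s p h]
    simp [h]
  · rw [sgn_mul s p h, if_pos h]
    push_cast
    ring_nf

theorem A_le (s : Nat.Primes → ℝ) (hs : ∀ p, s p = 1 ∨ s p = -1) (p : Nat.Primes) {N : ℕ} {B : ℝ} (hB : 0 ≤ B)
    (h : ∀ M ≤ N, ∀ x : ℝ, ‖FF (sgn s) M x‖ ≤ B * Real.sqrt M) :
    ∀ M : ℕ, M ≤ N → ∀ x : ℝ, ‖A s p M x‖ ≤ 7 / 2 * B * Real.sqrt M := by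
  intro M
  induction M using Nat.strong_induction_on with
  | _ M ih =>
    intro hM x
    rcases Nat.eq_zero_or_pos M with h0 | h0
    · subst h0
      unfold A
      simp
    · have hlt : M / (p : ℕ) < M := Nat.div_lt_self h0 p.2.one_lt
      have h1 := ih (M / (p : ℕ)) hlt (by omega) ((p : ℕ) * x)
      have h2 := h M hM x
      have h3 : A s p M x = FF (sgn s) M x - (s p : ℂ) * A s p (M / (p : ℕ)) ((p : ℕ) * x) := by
        rw [FF_eq s p M x]
        ring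
      have h4 : ‖(s p : ℂ)‖ = 1 := by
        rcases hs p with h5 | h5 <;> rw [h5] <;> simp
      have h5 : ((M / (p : ℕ) : ℕ) : ℝ) ≤ M / 2 := by
        have h6 : ((M / (p : ℕ) : ℕ) : ℝ) ≤ (M : ℝ) / ((p : ℕ) : ℝ) := Nat.cast_div_le
        have h7 : (2 : ℝ) ≤ ((p : ℕ) : ℝ) := by exact_mod_cast p.2.two_le
        exact h6.trans (div_le_div_of_nonneg_left (Nat.cast_nonneg M) (by norm_num) h7)
      have h6 : Real.sqrt ((M / (p : ℕ) : ℕ) : ℝ) ≤ 5 / 7 * Real.sqrt M := by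
        rw [Real.sqrt_le_left (by positivity), mul_pow, Real.sq_sqrt (Nat.cast_nonneg M)]
        have : (0:ℝ) ≤ M := Nat.cast_nonneg M
        nlinarith
      rw [h3]
      refine (norm_sub_le _ _).trans ?_
      rw [norm_mul, h4, one_mul]
      have h7 : 7 / 2 * B * Real.sqrt ((M / (p : ℕ) : ℕ) : ℝ) ≤ 7 / 2 * B * (5 / 7 * Real.sqrt M) :=
        mul_le_mul_of_nonneg_left h6 (by positivity)
      have h8 : 7 / 2 * B * (5 / 7 * Real.sqrt M) = 5 / 2 * (B * Real.sqrt M) := by ring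
      have h9 : 7 / 2 * B * Real.sqrt M = 7 / 2 * (B * Real.sqrt M) := by ring
      rw [h9]
      linarith

end P1

/-- P1 -/
theorem flip_one (s : Nat.Primes → ℝ) (hs : ∀ p, s p = 1 ∨ s p = -1) (p : Nat.Primes) (c : ℝ) (hc : c = 1 ∨ c = -1) {N : ℕ} {B : ℝ} (hB : 0 ≤ B)
    (h : ∀ M ≤ N, ∀ x : ℝ, ‖FF (sgn s) M x‖ ≤ B * Real.sqrt M) :
    ∀ M ≤ N, ∀ x : ℝ, ‖FF (sgn (Function.update s p c)) M x - FF (sgn s) M x‖ ≤ 7 * wt p * B * Real.sqrt M := by
  intro M hM x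
  rw [P1.FF_eq (Function.update s p c) p M x, P1.FF_eq s p M x, P1.A_upd, P1.A_upd, Function.update_self]
  have h1 : P1.A s p M x + (c : ℂ) * P1.A s p (M / (p : ℕ)) ((p : ℕ) * x) -
      (P1.A s p M x + (s p : ℂ) * P1.A s p (M / (p : ℕ)) ((p : ℕ) * x)) =
      ((c - s p : ℝ) : ℂ) * P1.A s p (M / (p : ℕ)) ((p : ℕ) * x) := by
    push_cast
    ring
  rw [h1, norm_mul]
  have h2 : ‖((c - s p : ℝ) : ℂ)‖ ≤ 2 := by
    rw [Complex.norm_real, Real.norm_eq_abs, abs_le]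
    rcases hc with hc | hc <;> rcases hs p with h3 | h3 <;> rw [hc, h3] <;> norm_num
  have h3 := P1.A_le s hs p hB h (M / (p : ℕ)) ((Nat.div_le_self _ _).trans hM) ((p : ℕ) * x)
  have hp : (0 : ℝ) < ((p : ℕ) : ℝ) := by exact_mod_cast p.2.pos
  have h4 : Real.sqrt ((M / (p : ℕ) : ℕ) : ℝ) ≤ wt p * Real.sqrt M := by
    have h5 : ((M / (p : ℕ) : ℕ) : ℝ) ≤ (M : ℝ) / ((p : ℕ) : ℝ) := Nat.cast_div_le
    refine (Real.sqrt_le_sqrt h5).trans (le_of_eq ?_)
    rw [Real.sqrt_div (Nat.cast_nonneg M)]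
    unfold wt
    ring
  calc ‖((c - s p : ℝ) : ℂ)‖ * ‖P1.A s p (M / (p : ℕ)) ((p : ℕ) * x)‖
      ≤ 2 * (7 / 2 * B * Real.sqrt ((M / (p : ℕ) : ℕ) : ℝ)) := mul_le_mul h2 h3 (norm_nonneg _) (by norm_num)
    _ ≤ 2 * (7 / 2 * B * (wt p * Real.sqrt M)) :=
        mul_le_mul_of_nonneg_left (mul_le_mul_of_nonneg_left h4 (by positivity)) (by norm_num)
    _ = 7 * wt p * B * Real.sqrt M := by ring

end Pool.Agent.Helper32.KK
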